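import Pool.Agent.Run7.h475.NP.Cor

set_option autoImplicit false

/-!
# The Bernoulli Anderson model with a change of the kinetic energy small in `L^p`

`-Δ + λ ω` on `ℤ^d`, `d ≥ 2`, with independent fair signs `ω_j = ± 1` (the model of the problem is
`λ = 1`). Fix any compact range `[λ₁, λ₂] ⊂ (0, ∞)` of couplings, any interval of energies
`(a₁, a₂)`, `1 < p < 2`, `g < d / 3` and `ε > 0`. There is one bounded continuous `f` for which
`f(-Δ)` is at most `ε` in `L^p` of the Brillouin zone and has hopping amplitudes at most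
`ε / (1 + |x|)^g`, such that for EVERY `λ ∈ [λ₁, λ₂]` the operator `-Δ + f(-Δ) + λ ω` has almost
surely purely absolutely continuous spectrum in `(a₁, a₂)`, filling this interval.
-/

namespace Pool.Agent.Results.MP_d0f69c_mp.EveryDisorderSmallChangeAC

open MeasureTheory
open scoped ENNReal

noncomputable section

/-- The symbol `∑ i (2 - 2 cos (2 π k_i))` of `-Δ` on the Brillouin zone. -/
def sym (d : ℕ) (k : UnitAddTorus (Fin d)) : ℝ := ∑ i, (2 - 2 * (fourier 1 (k i)).re)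

/-- The hopping amplitudes of `f(-Δ)` on `ℤ^d`. -/
def hopping (f : ℝ → ℝ) (d : ℕ) (x : Fin d → ℤ) : ℂ :=
  UnitAddTorus.mFourierCoeff (fun k : UnitAddTorus (Fin d) => ((f (sym d k) : ℝ) : ℂ)) x

/-- `(-Δ + f(-Δ) + λ ω) u (x)`. -/
def H (f : ℝ → ℝ) {d : ℕ} (lam : ℝ) (ω : (Fin d → ℤ) → ℝ) (u : (Fin d → ℤ) → ℂ)
    (x : Fin d → ℤ) : ℂ :=
  (∑ i : Fin d, (2 * u x - u (x + Pi.single i 1) - u (x - Pi.single i 1)))
    + (∑' y, hopping f d (x - y) * u y) + ((lam * ω x : ℝ) : ℂ) * u x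

/-- `u` is square summable and `(H - z) u = δ_x`, i.e. `u = (H - z)⁻¹ δ_x`. -/
def IsGreen (f : ℝ → ℝ) {d : ℕ} (lam : ℝ) (ω : (Fin d → ℤ) → ℝ) (z : ℂ) (x : Fin d → ℤ)
    (u : (Fin d → ℤ) → ℂ) : Prop :=
  Summable (fun y => ‖u y‖ ^ 2) ∧ ∀ y, H f lam ω u y - z * u y = if y = x then 1 else 0

/-- Purely absolutely continuous spectrum filling the interval `(a₁, a₂)`: for every site `x` the
spectral measure `μ` of `δ_x`, i.e. the finite measure with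
`⟨δ_x, (H - z)⁻¹ δ_x⟩ = ∫ dμ(E) / (E - z)`, has on `(a₁, a₂)` a density `h`, positive almost
everywhere there. -/
def ACOn (f : ℝ → ℝ) {d : ℕ} (lam : ℝ) (ω : (Fin d → ℤ) → ℝ) (a₁ a₂ : ℝ) : Prop :=
  ∀ x : Fin d → ℤ, ∃ (μ : Measure ℝ) (h : ℝ → ℝ), IsFiniteMeasure μ ∧
    (∀ z : ℂ, 0 < z.im → (∃ u, IsGreen f lam ω z x u) ∧
      ∀ u, IsGreen f lam ω z x u → u x = ∫ E : ℝ, 1 / ((E : ℂ) - z) ∂μ) ∧
    Measurable h ∧ (∀ᵐ E ∂(volume.restrict (Set.Ioo a₁ a₂)), 0 < h E) ∧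
    μ.restrict (Set.Ioo a₁ a₂)
      = (volume.restrict (Set.Ioo a₁ a₂)).withDensity fun E => ENNReal.ofReal (h E)

/-- The law of a fair sign `± 1`. -/
def signLaw : Measure ℝ :=
  (1 / 2 : ℝ≥0∞) • Measure.dirac 1 + (1 / 2 : ℝ≥0∞) • Measure.dirac (-1)

instance sign_prob : IsProbabilityMeasure signLaw := by
  refine ⟨?_⟩
  unfold signLaw
  simp only [Measure.add_apply, Measure.smul_apply, measure_univ, smul_eq_mul, mul_one]
  exact ENNReal.add_halves 1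

theorem sign_atom (x : ℝ) : signLaw {x} < 1 := by
  unfold signLaw
  simp only [Measure.add_apply, Measure.smul_apply, smul_eq_mul,
    Measure.dirac_apply' _ (measurableSet_singleton x), Set.indicator_apply,
    Set.mem_singleton_iff, Pi.one_apply]
  by_cases h1 : (1 : ℝ) = x
  · have h2 : ¬ ((-1 : ℝ) = x) := by
      intro h
      linarith
    rw [if_pos h1, if_neg h2]
    simp
  · rw [if_neg h1]
    by_cases h2 : (-1 : ℝ) = x
    · rw [if_pos h2]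
      simp
    · rw [if_neg h2]
      simp

theorem ac_of {f : C(ℝ, ℝ)} {d : ℕ} {lam : ℝ} {v : (Fin d → ℤ) → ℝ} {a₁ a₂ : ℝ}
    (h : W792.WA.ACIK (W792.LL.lap d + W792.WA.gK f d) 1 (fun x => lam * v x) a₁ a₂) :
    ACOn f lam v a₁ a₂ := by
  intro x
  obtain ⟨μ, g, h1, h2, h3, h4, h5⟩ := h x
  refine ⟨μ, g, h1, fun z hz => ?_, h3, h4, h5⟩
  obtain ⟨⟨w, hw⟩, h6⟩ := h2 z hz
  exact ⟨⟨w, (_root_.Run7.h475.NP.Cor.sol_iff' f lam v z x w).1 hw⟩,
    fun u hu => h6 u ((_root_.Run7.h475.NP.Cor.sol_iff' f lam v z x u).2 hu)⟩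

/-- Let `d ≥ 2`, let `[λ₁, λ₂] ⊂ (0, ∞)` be a compact range of couplings, `(a₁, a₂)` an interval of
energies, `1 < p < 2`, `0 ≤ g < d / 3` and `ε > 0`. There is a bounded continuous `f`, small in the
sense that `∫ |f(∑ i (2 - 2 cos (2 π k_i)))|^p dk ≤ ε` and that all hopping amplitudes of `f(-Δ)`
are at most `ε / (1 + |x|)^g`, such that for every `λ ∈ [λ₁, λ₂]`: for almost every `ω`,
`ω_j = ± 1` independent fair signs, the spectrum of `-Δ + f(-Δ) + λ ω` in `(a₁, a₂)` is purely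
absolutely continuous, and it fills this interval. -/
theorem result (d : ℕ) (hd : 2 ≤ d) (a₁ a₂ lam₁ lam₂ p g ε : ℝ) (ha : a₁ < a₂) (hl₁ : 0 < lam₁)
    (hl : lam₁ ≤ lam₂) (hp : 1 < p) (hp2 : p < 2) (hg : 0 ≤ g) (hg2 : g < (d : ℝ) / 3)
    (hε : 0 < ε) :
    ∃ f : ℝ → ℝ, Continuous f ∧ (∃ B : ℝ, ∀ t, |f t| ≤ B) ∧
      (∫ k : UnitAddTorus (Fin d), |f (sym d k)| ^ p ≤ ε) ∧
      (∀ x : Fin d → ℤ, ‖hopping f d x‖ ≤ ε / (1 + ‖x‖) ^ g) ∧
      ∀ lam : ℝ, lam₁ ≤ lam → lam ≤ lam₂ →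
        ∀ᵐ ω ∂(Measure.infinitePi fun _ : Fin d → ℤ => signLaw), ACOn f lam ω a₁ a₂ := by
  have hd0 : 0 < d := by omega
  obtain ⟨f, b1, b2, b3, b4⟩ := _root_.Run7.h475.NP.Cor.one_law signLaw sign_atom d hd0
    (W792.LL.lap d) a₁ a₂ p g lam₁ lam₂ ε ha hp hp2 hg hg2 hl₁ hl hε
  refine ⟨f, f.continuous, b1, b2, b3, fun lam h3 h4 => ?_⟩
  have b5 := b4 lam h3 h4
  change ∀ᵐ v ∂(Measure.infinitePi fun _ : Fin d → ℤ => signLaw), _ at b5
  filter_upwards [b5] with v hv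
  exact ac_of hv

end

end Pool.Agent.Results.MP_d0f69c_mp.EveryDisorderSmallChangeAC
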